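import Pool.Agent.W896.FD.Tri

/-!
# Triangle detection needs many reads or much memory

We consider Boolean circuits with AND gates of fan-in two, OR gates of any fan-in and negations at
the inputs, whose inputs are the `n (n - 1) / 2` entries of the adjacency matrix of a graph with `n`
vertices. Such a circuit accepts if and only if it has a proof tree all of whose leaves are true
literals; the formal degree in an entry is the largest number of leaves with this entry, that is, the
number of times this entry is read. Nondeterministic, in particular deterministic, branching programs
are such circuits (the logarithm of the size is the memory, and an entry which is read at most `k`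
times on every path has degree at most `k`), and so are programs with a stack; a proof tree of a
circuit may even read any part of the input again and again in its branches.

The circuits have to recognise the triangle-free graphs. (The graphs with a triangle are recognised
by a disjunction of small conjunctions, each of which reads three entries once.) Checking all triples
is a circuit of polynomial size and formal degree `n - 2` in each entry. We show that the size is
`2 ^ Ω (n)` if the degrees sum up to `O (n ^ 2)`, so on these dense inputs algorithms of this kind
with a memory of `o (n)` bits, in particular with `n ^ (1 - ε)` words, must make a superlinear number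
of reads. The statement holds for each vertex separately: it is enough that the degrees in the
entries of one row sum up to at most `k n`, while all the other entries may be read as often as one
likes; and then it remains true for circuits with one-sided randomness, which find out only with
probability `2 ^ (- n / D)` that there is no triangle.

The hard instances are a star with the centre `u` and a matching on the other vertices.
-/

set_option autoImplicit false

namespace Pool.Agent.Results.MP_ad5e8e_lc.FormalDegree

open Pool.Agent.W896.RK Pool.Agent.W896.FD Pool.Agent.W896.FD.Tri

/-- The inputs of the circuits are the entries `e : Sym2 (Fin n)` of the adjacency matrix, `bits G`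
are the entries of the graph `G`.

1. Let `u` be a vertex and `U r` (`r` in a finite nonempty set) circuits none of which accepts a graph
with a triangle, such that every triangle-free graph is accepted by at least a
`2 ^ (- ⌊n / 2 ^ (60 (k + 3))⌋)` fraction of them. If in each `U r` the formal degrees in the entries
`{u, v}` sum up to at most `k n`, then some `U r` has `g` gates with
`n ≤ 2 ^ (60 (k + 3)) (⌊log₂ g⌋ + 1)`.

2. If a circuit accepts exactly the triangle-free graphs, and its formal degrees in all entries sum
up to at most `k n ^ 2`, then it has `g` gates with `n ≤ 2 ^ (60 (2 k + 3)) (⌊log₂ g⌋ + 1)`. -/
theorem result (k n : ℕ) :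
    (∀ (u : Fin n) (R : Type) [Fintype R] [Nonempty R] (U : R → Circ (Sym2 (Fin n))),
      (∀ r G, (U r).Val (bits G) (U r).out → G.CliqueFree 3) →
      (∀ G : SimpleGraph (Fin n), G.CliqueFree 3 →
        Nat.card R ≤ 2 ^ (n / 2 ^ (60 * (k + 3))) *
          Nat.card {r // (U r).Val (bits G) (U r).out}) →
      (∀ r, ∃ d : (U r).G → Sym2 (Fin n) → ℕ, IsDeg (U r) id d ∧
        ∑ v, d (U r).out s(u, v) ≤ k * n) →
      ∃ r, n ≤ 2 ^ (60 * (k + 3)) * (Nat.log 2 (Fintype.card (U r).G) + 1)) ∧
    ∀ U : Circ (Sym2 (Fin n)), (∀ G, U.Val (bits G) U.out ↔ G.CliqueFree 3) →
      (∃ d : U.G → Sym2 (Fin n) → ℕ, IsDeg U id d ∧ ∑ e, d U.out e ≤ k * n ^ 2) →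
      n ≤ 2 ^ (60 * (2 * k + 3)) * (Nat.log 2 (Fintype.card U.G) + 1) :=
  ⟨fun u R _ _ U hU hc hd => tri_vertex k n u R U hU hc hd,
    fun U hU hd => tri_total k n U hU hd⟩

end Pool.Agent.Results.MP_ad5e8e_lc.FormalDegree
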