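import Pool.Agent.X240.SH.Tri

/-!
# Triangle detection: nondeterministic machines with slow heads which verify negative answers

A graph is given by the list of its `M` edges, in any order; an edge is given by the names of its two
vertices, the smaller one first, with `w` binary digits for each name, so the input is a word of
`n = 2 M w` bits.  Nonuniform nondeterministic programs with `k` two-way heads, which move by at most
one position in a step, with at most `2 ^ S` configurations, which accept the graphs without a
triangle within `T` steps and never accept a graph with a triangle, satisfy
`(k T + n) ^ 2 * k * (S + 1) * w ≥ n ^ 3 / 920000`.  It suffices that this is true for graphs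
with vertices below `4 M`.  So with space `M ^ o(1)` and a bounded number of heads they need time
`M ^ (3 / 2 - o(1))`, and with space `M ^ (1 - 2 c - o(1))` time `M ^ (1 + c)`.

Proof. The values `v_j` of the blocks `j` of a word are numbers below `q ^ 2`, written as pairs
`(x_j, y_j)` of numbers below `q`, where `q` is about `M`.  The blocks are divided into zones
of `d` consecutive blocks, and the class of a block is the parity of the number of its zone.  A block
of class `0` contains the edge `{X (x_j), Y (y_j)}` (and an edge of a star), a block of class `1` the
edges from a new vertex to `X (x_j)` and `Y (y_j)`.  If the values in each class are distinct, this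
is the list of the edges of a simple graph, and the graph has a triangle iff a value occurs in both
classes.  The general theorem on blocks of the library (`Pool.Agent.TH457.HT`) says that such programs
cannot accept exactly the words with distinct values; we extend it (`Pool.Agent.X240.SH.Bip`) to
programs which have to be correct only if the values in each of the two classes are distinct.
-/

set_option autoImplicit false

namespace Pool.Agent.Results.MP_ad5e8e_lc.NondeterministicSlowHeads

open Pool.Agent.TH457.HT Pool.Agent.X240.SH

/-- Let `P` be a nondeterministic program with `k ≥ 1` two-way heads for words of `2 M w` bits
and with at most `2 ^ S` configurations.  If each list of the `M` edges of a simple graph with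
vertices below `4 M` and without a triangle is accepted by some computation of at most `T` steps, and
if no such list of the edges of a graph with a triangle is accepted by any computation, then
`n ^ 3 ≤ 920000 * k * (S + 1) * w * (k * T + n) ^ 2` for `n = 2 M w`. -/
theorem result (M w k T S : ℕ) (P : HeadProg Bool (M * (2 * w)) k) (hk : 1 ≤ k)
    (hS : Fintype.card P.Q * (M * (2 * w)) ^ k ≤ 2 ^ S)
    (hacc : ∀ x : Fin M → ℕ × ℕ, IsEdgeList (4 * M) x → ¬ HasTriangle x →
      P.AcceptsIn T (eword M w x))
    (hsound : ∀ x : Fin M → ℕ × ℕ, IsEdgeList (4 * M) x → HasTriangle x →
      ¬ P.Accepts (eword M w x)) :
    (M * (2 * w)) ^ 3 ≤ 920000 * (k * (S + 1) * w * (k * T + M * (2 * w)) ^ 2) :=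
  tri_nondet M w P T S hk hS hacc hsound

end Pool.Agent.Results.MP_ad5e8e_lc.NondeterministicSlowHeads
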