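import Pool.Agent.X240.SH.Tri

/-!
# Triangle detection: randomized machines with slow heads

A graph is given by the list of its `M` edges, in any order; an edge is given by the names of its two
vertices, the smaller one first, with `w` binary digits for each name, so the input is a word of
`n = 2 M w` bits.  Randomized nonuniform programs with `k` two-way heads, which move by at most one
position in a step, with at most `2 ^ S` configurations, which find out within `T` steps, with error
probability at most `1 / 10000`, whether the graph has a triangle, satisfy
`(k T + n) ^ 2 * k * (S + 1) * w ≥ n ^ 3 / (3.7 * 10 ^ 7)`.  It suffices that this is true for graphs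
with vertices below `144 M`.  So randomized Turing machines with several heads on the input tape need
time `M ^ (3 / 2 - o(1))` for triangle detection if they use space `M ^ o(1)`, and time `M ^ (1 + c)`
if they use space `M ^ (1 - 2 c - o(1))`.  (An algorithm which is always correct, with expected time
`t`, gives such a program with `T = 10000 t`.)

Proof. The values `v_j` of the blocks `j` of a word are numbers below `q ^ 2`, written as pairs
`(x_j, y_j)` of numbers below `q`, where `q` is about `71 M`.  The blocks are divided into zones
of `d` consecutive blocks, and the class of a block is the parity of the number of its zone.  A block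
of class `0` contains the edge `{X (x_j), Y (y_j)}` (and an edge of a star), a block of class `1` the
edges from a new vertex to `X (x_j)` and `Y (y_j)`.  If the values in each class are distinct, this
is the list of the edges of a simple graph, and the graph has a triangle iff a value occurs in both
classes.  The general theorem on blocks of the library (`Pool.Agent.TH457.HT`) says that such programs
cannot decide whether the values `v_j` are distinct; we extend it (`Pool.Agent.X240.SH.BipR`) to
programs which have to be correct only if the values in each of the two classes are distinct: only the
pairs of zones of different classes are used, and almost all families of values are distinct, so that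
the families with a planted collision satisfy the promise.
-/

set_option autoImplicit false

namespace Pool.Agent.Results.MP_ad5e8e_lc.SlowHeads

open Pool.Agent.TH457.HT Pool.Agent.X240.SH

open Classical in
/-- Let `p`, `P` be a random program with `k ≥ 1` two-way heads for words of `2 M w` bits and
with at most `2 ^ S` configurations.  If for each list of the `M` edges of a simple graph with
vertices below `144 M` the right answer to the question whether the graph has a triangle is given
within `T` steps with probability at least `1 - 1 / 10000`, then
`n ^ 3 ≤ 37000000 * k * (S + 1) * w * (k * T + n) ^ 2` for `n = 2 M w`. -/
theorem result (M w k T S : ℕ) (Ω : Type) [Fintype Ω] (p : Ω → ℝ)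
    (P : Ω → DetProg Bool (M * (2 * w)) k)
    (hp : ∀ ω, 0 ≤ p ω) (hp1 : ∑ ω, p ω = 1) (hk : 1 ≤ k)
    (hS : ∀ ω, Fintype.card (P ω).Q * (M * (2 * w)) ^ k ≤ 2 ^ S)
    (h : ∀ x : Fin M → ℕ × ℕ, IsEdgeList (144 * M) x →
      1 - 1 / 10000 ≤ prob p P T (eword M w x) (decide (HasTriangle x))) :
    (M * (2 * w)) ^ 3 ≤ 37000000 * (k * (S + 1) * w * (k * T + M * (2 * w)) ^ 2) :=
  tri_rand M w p hp hp1 P T S hk hS h

end Pool.Agent.Results.MP_ad5e8e_lc.SlowHeads
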