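import Mathlib
import Pool.Agent.X240.Tri.Word

/-!
# Triangle detection: programs which test integral (min, max) formulas

The input is a list of the `m` edges of a simple graph on `2 m` vertices; the question is whether the
graph has a triangle. The items of the input are the edges.

The formulas (`Fml`) compute with integers: they are built from constants, arbitrary integral
functions of one edge, and arbitrary integral functions of `w` words of `c` bits, where each word is an
arbitrary function of one edge, by sums, products, maxima, minima, sign tests `pos` (with the values
`0`, `1`), and gates `sym` of any fan-in whose value is an arbitrary function of the number of positive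
inputs; for all lists of edges of simple graphs the absolute values of all subformulas are at most
`2 ^ v`. A formula accepts if its value is positive. Its size is the number of leaves (constants are
free) plus the number of wires which lead to gates `sym`. In a branching program (`Program`) every
inner node tests whether a formula accepts; its size is the number of inner nodes plus the sizes of
all these formulas.

We show for `m ≥ 2048` that random branching programs of size at most `s` which decide with error
probability at most `1 / 3` whether the graph has a triangle need
`m ^ 2 log₂ m ≤ 2500 w (v + c w + log₂ m) s`. So if `w` is bounded and all numbers and words have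
`O (log m)` bits, as in the word RAM, then the size is at least of the order `m ^ 2`, and it is
superlinear as long as the numbers have `o (m log m)` bits (`v`, `c`).

Proof. Each edge can ask for about `m log₂ m / 4` bits which are encoded in the other edges
(`Pool.Agent.TH457.Ary.Tri`). We count the functions of one edge which arise when the others are
fixed: between two leaves which see it the other parts of the formula act by a clamped affine function
or a function of a threshold test, which is given by `O (v)` bits (`Pool.Agent.Y638.WF`).
-/

set_option autoImplicit false

namespace Pool.Agent.Results.MP_ad5e8e_lc.WordPrograms

open Pool.Agent.TH697.Form (IsProb)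
open Pool.Agent.TH697.Row (ApproximatesOn)
open Pool.Agent.TH457.Ary.Tri (Edge Simple triangle)
open Pool.Agent.Y638.WF (Program)

theorem result : ∀ m c w v : ℕ, 2048 ≤ m → 1 ≤ w →
    ∀ (Ω : Type) [Fintype Ω] (μ : Ω → ℝ), IsProb μ →
      ∀ (s : ℕ) (B : Ω → Program (Fin m) (fun _ => Edge (2 * m)) w (2 ^ c) (2 ^ v) Simple s),
        ApproximatesOn μ (fun ω => (B ω).eval) Simple triangle →
        (m : ℝ) ^ 2 * Real.logb 2 m ≤ 2500 * w * (v + c * w + Real.logb 2 m) * s :=
  fun _ _ _ _ hm hw _ _ μ hμ s B hB => Pool.Agent.X240.Tri.word_bound hm hw μ hμ s B hB

end Pool.Agent.Results.MP_ad5e8e_lc.WordPrograms
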